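import Pool.Agent.H475Z.CD.Simple

/-!
For every infinite field (of any characteristic), every `n ≥ 4` and all admissible parameters, the
Cayley-Dickson algebra `A_n` is simple and the variety it generates is not locally admissible.
-/

namespace Pool.Agent.Results.MP_68720f_al.ANotAdmissible

open Pool.Agent.H475Z.CD

universe u

theorem result (F : Type u) [Field F] [Infinite F] (α : F) (γ : ℕ → F) (n : ℕ) (hn : 4 ≤ n)
    (hα : 1 + 4 * α ≠ 0) (hγ : ∀ k, 2 ≤ k → k ≤ n → γ k ≠ 0) :
    IsSimpleRing (cd α γ n).V ∧ ¬ LocallyAdmissible F (cd α γ n).V :=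
  main α γ n hn hα hγ

end Pool.Agent.Results.MP_68720f_al.ANotAdmissible
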